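import Pool.Agent.H13.INS.IL

/-!
# Module IB
-/

set_option autoImplicit false

open MeasureTheory ProbabilityTheory
open scoped ENNReal

namespace Pool.Agent.H95.INS

open Pool.Agent.H99.NS Pool.Agent.H22.LPP

lemma h13_pow16 (k : ℕ) : (16 : ℝ) ^ k = (4 ^ k) ^ 2 := by
  rw [← pow_mul, mul_comm k 2, pow_mul]
  norm_num

/-- Powers of the height of the slab. -/
lemma h13_heights (k L : ℕ) (hk : 13 ≤ k) (h1 : 8 * 64 ^ (k - 1) ≤ L) (h2 : L ≤ 64 ^ k) :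
    0 < (L : ℝ) ^ ((1:ℝ) / 3) ∧ (L : ℝ) ^ ((1:ℝ) / 3) ≤ 4 ^ k ∧
    (16 : ℝ) ^ k / 4 ≤ (L : ℝ) ^ ((2:ℝ) / 3) ∧ 2 * (16 : ℝ) ^ k ≤ XL L := by
  have hL : (8 * 64 ^ (k - 1) : ℝ) ≤ (L : ℝ) := by exact_mod_cast h1
  have hL2 : (L : ℝ) ≤ 64 ^ k := by exact_mod_cast h2
  have hL0 : (0 : ℝ) < L := lt_of_lt_of_le (by positivity) hL
  set z : ℝ := (L : ℝ) ^ ((1:ℝ) / 3) with hz
  have hz0 : 0 < z := Real.rpow_pos_of_pos hL0 _
  have hz1 : (4 : ℝ) ^ k / 2 ≤ z := by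
    rw [← h13_cube k (by omega)]
    exact Real.rpow_le_rpow (by positivity) hL (by norm_num)
  have hz2 : z ≤ 4 ^ k := by
    have h3 : ((64 : ℝ) ^ k) ^ ((1:ℝ) / 3) = 4 ^ k := by
      have h4 : (64 : ℝ) ^ k = (4 ^ k) ^ (3 : ℕ) := by
        rw [← pow_mul, mul_comm k 3, pow_mul]
        norm_num
      rw [h4, ← Real.rpow_natCast, ← Real.rpow_mul (by positivity)]
      norm_num
    rw [← h3]
    exact Real.rpow_le_rpow hL0.le hL2 (by norm_num)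
  have e2 : (L : ℝ) ^ ((2:ℝ) / 3) = z ^ 2 := by
    rw [hz, ← Real.rpow_natCast, ← Real.rpow_mul hL0.le]
    norm_num
  have e3 : XL L = z ^ 2 * z ^ ((1:ℝ) / 8) := by
    rw [XL, hz, ← Real.rpow_natCast, ← Real.rpow_mul hL0.le, ← Real.rpow_mul hL0.le,
      ← Real.rpow_add hL0]
    norm_num
  have h16 := h13_pow16 k
  have h4k : (2 : ℝ) ^ 26 ≤ 4 ^ k := by
    calc (2 : ℝ) ^ 26 = 4 ^ 13 := by norm_num
      _ ≤ 4 ^ k := pow_le_pow_right₀ (by norm_num) hk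
  have h8 : (8 : ℝ) ≤ z ^ ((1:ℝ) / 8) := by
    have h9 : ((8 : ℝ) ^ (8 : ℕ)) ^ ((1:ℝ) / 8) = 8 := by
      rw [← Real.rpow_natCast, ← Real.rpow_mul (by norm_num)]
      norm_num
    have h10 : ((8 : ℝ) ^ (8 : ℕ)) ≤ z := by
      refine le_trans ?_ hz1
      rw [le_div_iff₀ (by norm_num)]
      refine le_trans ?_ h4k
      norm_num
    calc (8 : ℝ) = ((8 : ℝ) ^ (8 : ℕ)) ^ ((1:ℝ) / 8) := h9.symm
      _ ≤ z ^ ((1:ℝ) / 8) := Real.rpow_le_rpow (by norm_num) h10 (by norm_num)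
  have hz4 : (16 : ℝ) ^ k / 4 ≤ z ^ 2 := by
    have h5 : ((4 : ℝ) ^ k / 2) ^ 2 ≤ z ^ 2 := pow_le_pow_left₀ (by positivity) hz1 2
    rw [h16]
    calc ((4 : ℝ) ^ k) ^ 2 / 4 = ((4 : ℝ) ^ k / 2) ^ 2 := by ring
      _ ≤ _ := h5
  refine ⟨hz0, hz2, by rw [e2]; exact hz4, ?_⟩
  rw [e3]
  calc 2 * (16 : ℝ) ^ k = (16 ^ k / 4) * 8 := by ring
    _ ≤ z ^ 2 * z ^ ((1:ℝ) / 8) := mul_le_mul hz4 h8 (by norm_num) (by positivity)

theorem pf_IB : T_IB := by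
  intro hB q hq0 hq1
  obtain ⟨C, c, hC, hc, h⟩ := hB q hq0 hq1
  refine ⟨81 * (C * Real.exp c), c, by positivity, hc, 13, by norm_num,
    fun k hk s t hst Y hY => ?_⟩
  have hk1 : (64 : ℕ) ^ k = 64 * 64 ^ (k - 1) := by
    rw [← pow_succ', Nat.sub_add_cancel (by omega)]
  obtain ⟨L, hL, hL1, hL2⟩ : ∃ L : ℕ, t = s + L ∧ 8 * 64 ^ (k - 1) ≤ L ∧ L ≤ 64 ^ k := by
    rcases hst with h1 | h1 | h1
    · refine ⟨8 * 64 ^ (k - 1), ?_, le_refl _, ?_⟩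
      · push_cast
        linarith
      · rw [hk1]
        omega
    · refine ⟨32 * 64 ^ (k - 1), ?_, ?_, ?_⟩
      · push_cast
        linarith
      · omega
      · rw [hk1]
        omega
    · refine ⟨64 ^ k, ?_, ?_, le_refl _⟩
      · push_cast
        linarith
      · rw [hk1]
        omega
  obtain ⟨hz0, hz1, hz2, hz3⟩ := h13_heights k L hk hL1 hL2
  have hLpos : 1 ≤ L := by
    have : 0 < 64 ^ (k - 1) := by positivity
    omega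
  set D : ℤ := 4 * 16 ^ (k - 1) with hD
  have hD0 : 0 < D := by positivity
  have hDk : (16 : ℤ) ^ k = 4 * D := by
    rw [hD]
    have : (16 : ℤ) ^ k = 16 * 16 ^ (k - 1) := by
      rw [← pow_succ', Nat.sub_add_cancel (by omega)]
    rw [this]
    ring
  have hDr : (D : ℝ) = (16 : ℝ) ^ k / 4 := by
    have : ((16 : ℤ) ^ k : ℝ) = 4 * (D : ℝ) := by exact_mod_cast hDk
    push_cast at this
    linarith
  have hwin : ∀ x : ℤ, |x| ≤ 16 ^ k → ∃ i : ℤ, i ∈ Finset.Icc (-4 : ℤ) 4 ∧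
      |((x - i * D : ℤ) : ℝ)| ≤ (L : ℝ) ^ ((2:ℝ) / 3) := by
    intro x hx
    rw [hDk, abs_le] at hx
    refine ⟨x / D, ?_, ?_⟩
    · rw [Finset.mem_Icc]
      constructor
      · rw [Int.le_ediv_iff_mul_le hD0]
        linarith [hx.1]
      · have := Int.ediv_le_ediv hD0 hx.2
        rwa [Int.mul_ediv_cancel _ hD0.ne'] at this
    · have h1 := Int.emod_nonneg x hD0.ne'
      have h2 := Int.emod_lt_of_pos x hD0
      have h3 : x - x / D * D = x % D := by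
        have := Int.emod_add_mul_ediv x D
        linarith [mul_comm D (x / D)]
      rw [h3]
      rw [← Int.cast_abs, abs_of_nonneg h1]
      refine le_trans ?_ hz2
      rw [← hDr]
      exact_mod_cast h2.le
  set Ev : ℤ × ℤ → Set Env := fun p => {ω | ∃ x y : ℤ,
    Reach (((s, p.1 * D) : Site).1, x) (((s, p.1 * D) : Site).1 + L, y) ∧
      |((x - ((s, p.1 * D) : Site).2 : ℤ) : ℝ)| ≤ (L : ℝ) ^ (2 / 3 : ℝ) ∧
      |((y - (((s, p.1 * D) : Site).2 + (p.2 - p.1) * D) : ℤ) : ℝ)| ≤ (L : ℝ) ^ (2 / 3 : ℝ) ∧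
      T ω (((s, p.1 * D) : Site).1, x) (((s, p.1 * D) : Site).1 + L, y) ≤
        par q (((s, p.1 * D) : Site).1, x) (((s, p.1 * D) : Site).1 + L, y) -
          Y * (L : ℝ) ^ (1 / 3 : ℝ)} with hEv
  have hY32 : Y - 1 ≤ Y ^ ((3:ℝ) / 2) := by
    rcases le_or_gt 1 Y with h1 | h1
    · have : Y ^ (1 : ℝ) ≤ Y ^ ((3:ℝ) / 2) := Real.rpow_le_rpow_of_exponent_le h1 (by norm_num)
      rw [Real.rpow_one] at this
      linarith
    · have : 0 ≤ Y ^ ((3:ℝ) / 2) := Real.rpow_nonneg hY.le _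
      linarith
  have hexp : C * Real.exp (-c * Y ^ (3 / 2 : ℝ)) ≤
      C * Real.exp c * Real.exp (-(c * Y)) := by
    rw [mul_assoc, ← Real.exp_add]
    refine mul_le_mul_of_nonneg_left (Real.exp_le_exp.mpr ?_) hC.le
    nlinarith [mul_le_mul_of_nonneg_left hY32 hc.le]
  have hEvp : ∀ p ∈ Finset.Icc (-4 : ℤ) 4 ×ˢ Finset.Icc (-4 : ℤ) 4,
      PE q (Ev p) ≤ ENNReal.ofReal (C * Real.exp c * Real.exp (-(c * Y))) := by
    intro p hp
    rw [Finset.mem_product, Finset.mem_Icc, Finset.mem_Icc] at hp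
    have hE : |(((p.2 - p.1) * D : ℤ) : ℝ)| ≤ XL L := by
      refine le_trans ?_ hz3
      have h1 : |(p.2 - p.1) * D| ≤ 8 * D := by
        rw [abs_mul, abs_of_pos hD0]
        refine mul_le_mul_of_nonneg_right ?_ hD0.le
        rw [abs_le]
        constructor <;> linarith [hp.1.1, hp.1.2, hp.2.1, hp.2.2]
      have h2 : |(((p.2 - p.1) * D : ℤ) : ℝ)| ≤ 8 * (D : ℝ) := by
        rw [← Int.cast_abs]
        exact_mod_cast h1
      refine h2.trans (le_of_eq ?_)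
      rw [hDr]
      ring
    have h1 := h L hLpos (s, p.1 * D) ((p.2 - p.1) * D) hE Y hY.le
    rw [← ENNReal.ofReal_toReal (measure_ne_top (PE q) (Ev p))]
    exact ENNReal.ofReal_le_ofReal (h1.trans hexp)
  have hsub : {ω | ∃ x y : ℤ, |x| ≤ 16 ^ k ∧ |y| ≤ 16 ^ k ∧
      Reach (s, x) (t, y) ∧ T ω (s, x) (t, y) < par q (s, x) (t, y) - Y * 4 ^ k} ⊆
      ⋃ p ∈ Finset.Icc (-4 : ℤ) 4 ×ˢ Finset.Icc (-4 : ℤ) 4, Ev p := by
    rintro ω ⟨x, y, hx, hy, hR, hT⟩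
    obtain ⟨i, hi, hi2⟩ := hwin x hx
    obtain ⟨j, hj, hj2⟩ := hwin y hy
    rw [Set.mem_iUnion₂]
    refine ⟨(i, j), Finset.mem_product.mpr ⟨hi, hj⟩, x, y, ?_, hi2, ?_, ?_⟩
    · rw [← hL]
      exact hR
    · have : y - (i * D + (j - i) * D) = y - j * D := by ring
      rw [this]
      exact hj2
    · rw [← hL]
      refine hT.le.trans ?_
      have : Y * (L : ℝ) ^ (1 / 3 : ℝ) ≤ Y * 4 ^ k := mul_le_mul_of_nonneg_left hz1 hY.le
      linarith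
  calc PE q _ ≤ PE q (⋃ p ∈ Finset.Icc (-4 : ℤ) 4 ×ˢ Finset.Icc (-4 : ℤ) 4, Ev p) :=
        measure_mono hsub
    _ ≤ ∑ p ∈ Finset.Icc (-4 : ℤ) 4 ×ˢ Finset.Icc (-4 : ℤ) 4, PE q (Ev p) :=
        measure_biUnion_finset_le _ _
    _ ≤ ∑ p ∈ Finset.Icc (-4 : ℤ) 4 ×ˢ Finset.Icc (-4 : ℤ) 4,
          ENNReal.ofReal (C * Real.exp c * Real.exp (-(c * Y))) := Finset.sum_le_sum hEvp
    _ = ENNReal.ofReal (81 * (C * Real.exp c) * Real.exp (-(c * Y))) := by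
        have h9 : (Finset.Icc (-4 : ℤ) 4).card = 9 := rfl
        rw [Finset.sum_const, Finset.card_product, h9, nsmul_eq_mul,
          show ((9 * 9 : ℕ) : ℝ≥0∞) = ENNReal.ofReal 81 by norm_num,
          ← ENNReal.ofReal_mul (by norm_num)]
        congr 1
        ring

end Pool.Agent.H95.INS
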