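import Pool.Agent.H95.INS.Targets3

/-!
# Modules IL and IB
-/

set_option autoImplicit false

open MeasureTheory ProbabilityTheory
open scoped ENNReal

namespace Pool.Agent.H95.INS

open Pool.Agent.H99.NS Pool.Agent.H22.LPP

lemma h13_cube (k : ℕ) (hk : 1 ≤ k) :
    ((8 * 64 ^ (k - 1) : ℝ)) ^ ((1 : ℝ) / 3) = 4 ^ k / 2 := by
  obtain ⟨j, rfl⟩ : ∃ j, k = j + 1 := ⟨k - 1, by omega⟩
  rw [Nat.add_sub_cancel]
  have h1 : (8 * 64 ^ j : ℝ) = (2 * 4 ^ j) ^ (3 : ℕ) := by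
    rw [mul_pow, ← pow_mul, mul_comm j 3, pow_mul]
    norm_num
  rw [h1, ← Real.rpow_natCast, ← Real.rpow_mul (by positivity)]
  norm_num
  ring

theorem pf_IL : T_IL := by
  intro q cs _ _ hL ε hε
  obtain ⟨K₀, hK₀, h⟩ := hL ε hε
  refine ⟨K₀, hK₀, fun K hK => ?_⟩
  obtain ⟨N₀, hN⟩ := h K hK
  refine ⟨N₀ + 1, by omega, fun k hk s => ?_⟩
  have hm : N₀ ≤ 4 * 64 ^ (k - 1) := by
    have h1 : k - 1 < 64 ^ (k - 1) := Nat.lt_pow_self (by norm_num)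
    omega
  refine (hN _ hm).trans (le_of_eq ?_)
  have e := law_shift q ((s, 0) : Site) (0, 0) (((2 * (4 * 64 ^ (k - 1)) : ℕ) : ℤ), 0)
    (Set.Ici (mu q * (8 * 64 ^ (k - 1)) + K / 2 * 4 ^ k)) measurableSet_Ici
  have c1 : ((2 * (4 * 64 ^ (k - 1)) : ℕ) : ℝ) = 8 * 64 ^ (k - 1) := by
    push_cast
    ring
  have c2 : mu q * (2 * ((4 * 64 ^ (k - 1) : ℕ) : ℝ)) +
      K * ((2 * (4 * 64 ^ (k - 1)) : ℕ) : ℝ) ^ ((1:ℝ)/3) =
      mu q * (8 * 64 ^ (k - 1)) + K / 2 * 4 ^ k := by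
    rw [c1, h13_cube k (by omega)]
    push_cast
    ring
  rw [c2]
  have c3 : ((0, 0) : Site) + (s, 0) = (s, 0) := by simp
  have c4 : ((((2 * (4 * 64 ^ (k - 1)) : ℕ) : ℤ), 0) : Site) + (s, 0) =
      (s + 8 * 64 ^ (k - 1), 0) := by
    rw [Prod.mk_add_mk, add_zero]
    congr 1
    push_cast
    ring
  rw [c3, c4] at e
  exact e.symm

end Pool.Agent.H95.INS
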